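import Pool.Agent.X143.SD.Stm

/-!
# Part MOD of the project SD: the average over lists is an iterated operator
-/

set_option autoImplicit false

namespace Pool.Agent.X60.SD

open Finset Pool.Agent.X143.SD

variable {n d : ℕ}

theorem step_none {q : ℕ} {ld : Fin n → ℕ} {e : Fin d ↪ Fin n} (h : pick q ld e = none) :
    step q ld e = ld := by
  unfold step
  rw [h]

theorem step_some {q : ℕ} {ld : Fin n → ℕ} {e : Fin d ↪ Fin n} {s : Fin n}
    (h : pick q ld e = some s) : step q ld e = Function.update ld s (ld s + 1) := by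
  unfold step
  rw [h]

theorem step_le {ld : Fin n → ℕ} (h : ∀ s, ld s ≤ 2) (e : Fin d ↪ Fin n) :
    ∀ s, step 2 ld e s ≤ 2 := by
  intro s
  rcases hs : pick 2 ld e with _ | s0
  · rw [step_none hs]
    exact h s
  · rw [step_some hs]
    have h1 : ld s0 < 2 := by
      have := List.find?_some hs
      simpa using this
    by_cases hss : s = s0
    · subst hss
      rw [Function.update_self]
      omega
    · rw [Function.update_of_ne hss]
      exact h s

theorem foldl_le (l : List (Fin d ↪ Fin n)) : ∀ ld : Fin n → ℕ, (∀ s, ld s ≤ 2) →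
    ∀ s, l.foldl (step 2) ld s ≤ 2 := by
  induction l with
  | nil => exact fun ld h => h
  | cons e l ih =>
    intro ld h
    rw [List.foldl_cons]
    exact ih _ (step_le h e)

theorem loads_le {i : ℕ} (L : Fin i → (Fin d ↪ Fin n)) : ∀ s, loads 2 L s ≤ 2 :=
  foldl_le _ _ fun _ => by omega

theorem loads_snoc {i : ℕ} (L : Fin i → (Fin d ↪ Fin n)) (e : Fin d ↪ Fin n) :
    loads 2 (Fin.snoc (α := fun _ => Fin d ↪ Fin n) L e) = step 2 (loads 2 L) e := by
  unfold loads
  rw [List.ofFn_succ', List.concat_eq_append, List.foldl_append]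
  simp [Fin.snoc_castSucc, Fin.snoc_last]

theorem pot {ld : Fin n → ℕ} (h : ∀ s, ld s ≤ 2) :
    2 * (c0 ld : ℝ) + (c1 ld : ℝ) = ∑ s, (2 - (ld s : ℝ)) := by
  unfold c0 c1
  rw [Finset.card_filter, Finset.card_filter]
  push_cast
  rw [Finset.mul_sum, ← Finset.sum_add_distrib]
  refine Finset.sum_congr rfl fun s _ => ?_
  have h1 := h s
  have h2 : ld s = 0 ∨ ld s = 1 ∨ ld s = 2 := by omega
  rcases h2 with h2 | h2 | h2 <;> rw [h2] <;> norm_num

theorem sum_step (q : ℕ) (ld : Fin n → ℕ) (e : Fin d ↪ Fin n) :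
    ∑ s, ((step q ld e s : ℕ) : ℝ) = ∑ s, (ld s : ℝ) +
      if (pick q ld e).isSome = true then (1 : ℝ) else 0 := by
  rcases hs : pick q ld e with _ | s0
  · rw [step_none hs]
    simp
  · rw [step_some hs]
    simp only [Option.isSome_some, if_true]
    have h1 : ∀ s, ((Function.update ld s0 (ld s0 + 1) s : ℕ) : ℝ) =
        (ld s : ℝ) + if s = s0 then 1 else 0 := by
      intro s
      by_cases hss : s = s0
      · subst hss
        rw [Function.update_self, if_pos rfl]
        push_cast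
        rfl
      · rw [Function.update_of_ne hss, if_neg hss, add_zero]
    simp_rw [h1]
    rw [Finset.sum_add_distrib]
    simp

theorem it_comm (G : ℕ → ℕ → ℝ) : ∀ i : ℕ, It n d (Top n d G) i = It n d G (i + 1)
  | 0 => rfl
  | i + 1 => by
    show Top n d (It n d (Top n d G) i) = Top n d (It n d G (i + 1))
    rw [it_comm G i]

theorem main (hC : S_CNT) (hd : 1 ≤ d) (hdn : d ≤ n) : ∀ (i : ℕ) (G : ℕ → ℕ → ℝ),
    ∑ L : Fin i → (Fin d ↪ Fin n), G (c0 (loads 2 L)) (c1 (loads 2 L)) =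
      (Fintype.card (Fin d ↪ Fin n) : ℝ) ^ i * It n d G i n 0 := by
  intro i
  induction i with
  | zero =>
    intro G
    rw [Fintype.sum_unique]
    simp [loads, c0, c1, It]
  | succ i ih =>
    intro G
    have h1 : ∑ L : Fin (i + 1) → (Fin d ↪ Fin n), G (c0 (loads 2 L)) (c1 (loads 2 L)) =
        ∑ x : (Fin d ↪ Fin n) × (Fin i → (Fin d ↪ Fin n)),
          G (c0 (step 2 (loads 2 x.2) x.1)) (c1 (step 2 (loads 2 x.2) x.1)) := by
      symm
      refine Fintype.sum_equiv (Fin.snocEquiv (fun _ => Fin d ↪ Fin n)) _ _ fun x => ?_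
      rw [← loads_snoc]
      rfl
    rw [h1, Fintype.sum_prod_type_right]
    have h2 : ∀ L : Fin i → (Fin d ↪ Fin n), ∑ e : Fin d ↪ Fin n,
        G (c0 (step 2 (loads 2 L) e)) (c1 (step 2 (loads 2 L) e)) =
        (Fintype.card (Fin d ↪ Fin n) : ℝ) * Top n d G (c0 (loads 2 L)) (c1 (loads 2 L)) :=
      fun L => hC n d hd hdn _ (loads_le L) G
    simp_rw [h2]
    rw [← Finset.mul_sum, ih, it_comm, pow_succ]
    ring

theorem ind (hC : S_CNT) (hd : 1 ≤ d) (hdn : d ≤ n) {ld : Fin n → ℕ} (h : ∀ s, ld s ≤ 2) :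
    ∑ e : Fin d ↪ Fin n, (if (pick 2 ld e).isSome = true then (1 : ℝ) else 0) =
      (Fintype.card (Fin d ↪ Fin n) : ℝ) * (1 - phi n d (n - c0 ld - c1 ld)) := by
  have h1 := hC n d hd hdn ld h (fun a b => 2 * (a : ℝ) + (b : ℝ))
  have h2 : ∀ e : Fin d ↪ Fin n, 2 * (c0 (step 2 ld e) : ℝ) + (c1 (step 2 ld e) : ℝ) =
      (2 * (c0 ld : ℝ) + (c1 ld : ℝ)) - if (pick 2 ld e).isSome = true then (1 : ℝ) else 0 := by
    intro e
    rw [pot (step_le h e), pot h, Finset.sum_sub_distrib, Finset.sum_sub_distrib, sum_step]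
    ring
  simp_rw [h2] at h1
  rw [Finset.sum_sub_distrib, Finset.sum_const, Finset.card_univ, nsmul_eq_mul] at h1
  have h3 : Top n d (fun a b => 2 * (a : ℝ) + (b : ℝ)) (c0 ld) (c1 ld) =
      2 * (c0 ld : ℝ) + (c1 ld : ℝ) - (1 - phi n d (n - c0 ld - c1 ld)) := by
    unfold Pool.Agent.X143.SD.Top
    set a := c0 ld with ha
    set b := c1 ld with hb
    clear_value a b
    rcases Nat.eq_zero_or_pos (a + b) with h0 | h0
    · have ha0 : a = 0 := by omega
      have hb0 : b = 0 := by omega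
      subst ha0 hb0
      have hphi : phi n d (n - 0 - 0) = 1 := by
        unfold phi
        rw [Nat.sub_zero, Nat.sub_zero]
        apply div_self
        have : 0 < n.descFactorial d := Nat.descFactorial_pos.2 hdn
        positivity
      rw [hphi]
      simp
    · have hab : ((a : ℝ) + b) ≠ 0 := by
        have : (0 : ℝ) < (a : ℝ) + b := by exact_mod_cast h0
        exact this.ne'
      have e1 : (a : ℝ) / (a + b) * (2 * ((a - 1 : ℕ) : ℝ) + ((b + 1 : ℕ) : ℝ)) =
          (a : ℝ) / (a + b) * (2 * a + b - 1) := by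
        rcases Nat.eq_zero_or_pos a with h4 | h4
        · subst h4
          simp
        · rw [Nat.cast_sub h4]
          push_cast
          ring
      have e2 : (b : ℝ) / (a + b) * (2 * (a : ℝ) + ((b - 1 : ℕ) : ℝ)) =
          (b : ℝ) / (a + b) * (2 * a + b - 1) := by
        rcases Nat.eq_zero_or_pos b with h4 | h4
        · subst h4
          simp
        · rw [Nat.cast_sub h4]
          push_cast
          ring
      rw [e1, e2]
      field_simp
      ring
  rw [h3] at h1
  linarith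

/-- **Part MOD.** -/
theorem t_MOD (hC : S_CNT) : S_MOD := by
  intro n d i hd hdn
  unfold prM
  have hN : (Fintype.card (Fin d ↪ Fin n) : ℝ) ≠ 0 := by
    have : Nonempty (Fin d ↪ Fin n) := ⟨Fin.castLEEmb hdn⟩
    exact_mod_cast Fintype.card_ne_zero
  have h1 : ∀ L : Fin i → (Fin d ↪ Fin n), ∑ e : Fin d ↪ Fin n,
      (if (pick 2 (loads 2 L) e).isSome = true then (1 : ℝ) else 0) =
      (Fintype.card (Fin d ↪ Fin n) : ℝ) *
        (1 - phi n d (n - c0 (loads 2 L) - c1 (loads 2 L))) :=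
    fun L => ind hC hd hdn (loads_le L)
  simp_rw [h1]
  rw [← Finset.mul_sum]
  have h2 := main hC hd hdn i (fun a b => 1 - phi n d (n - a - b))
  rw [h2, mul_comm ((Fintype.card (Fin d ↪ Fin n) : ℝ) ^ i) (Fintype.card (Fin d ↪ Fin n) : ℝ),
    ← mul_assoc, mul_div_cancel_left₀]
  exact mul_ne_zero hN (pow_ne_zero _ hN)

end Pool.Agent.X60.SD
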